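import Mathlib
import Pool.Agent.MP_6ded3d_an.AllP6

/-!
For every exponent `p > 1` there is an explicit homeomorphism `f` of a closed disc in the plane
which is the unique minimiser of the `L ^ p` norm of the inner distortion in the class of its own
boundary values, is of class `C ^ 1` with positive Jacobian, and is not of class `C ^ 2`.
-/

set_option autoImplicit false

open MeasureTheory Set

namespace Pool.Agent.Results.MP_6ded3d_an.AllExponents

/-- The plane. -/
abbrev Plane : Type := EuclideanSpace ℝ (Fin 2)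

/-- The real two by two matrices. -/
abbrev Mat : Type := Matrix (Fin 2) (Fin 2) ℝ

/-- The length of the vector `A (a, b)`. -/
noncomputable def lengthOf (A : Mat) (a b : ℝ) : ℝ :=
  Real.sqrt ((A 0 0 * a + A 0 1 * b) ^ 2 + (A 1 0 * a + A 1 1 * b) ^ 2)

/-- The operator norm of a matrix. -/
noncomputable def opNorm (A : Mat) : ℝ :=
  sSup {r : ℝ | ∃ a b : ℝ, a ^ 2 + b ^ 2 ≤ 1 ∧ r = lengthOf A a b}

/-- The function `u` is locally integrable on `Ω`. -/
def LocInt (Ω : Set Plane) (u : Plane → ℝ) : Prop := LocallyIntegrableOn u Ω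

/-- The property `P` holds almost everywhere in `Ω`. -/
def AlmostAll (Ω : Set Plane) (P : Plane → Prop) : Prop := ∀ᵐ x ∂(volume.restrict Ω), P x

/-- A smooth function with compact support in `Ω`. -/
def IsTest (Ω : Set Plane) (φ : Plane → ℝ) : Prop :=
  ContDiff ℝ ((⊤ : ℕ∞) : WithTop ℕ∞) φ ∧ HasCompactSupport φ ∧ tsupport φ ⊆ Ω

/-- The `j`-th partial derivative of `φ` at `x`. -/
noncomputable def partialD (j : Fin 2) (φ : Plane → ℝ) (x : Plane) : ℝ :=
  fderiv ℝ φ x (EuclideanSpace.single j (1 : ℝ))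

/-- The integral over `Ω`. -/
noncomputable def integralOn (Ω : Set Plane) (u : Plane → ℝ) : ℝ := ∫ x in Ω, u x

/-- Integration by parts: `Df` is the weak differential of `f` on `Ω`. -/
def WeakDifferential (Ω : Set Plane) (f : Plane → Plane) (Df : Plane → Mat) : Prop :=
  ∀ φ : Plane → ℝ, IsTest Ω φ → ∀ i j : Fin 2,
    integralOn Ω (fun x => f x i * partialD j φ x) = - integralOn Ω (fun x => Df x i j * φ x)

/-- The map `f` has finite distortion on `Ω`, with weak differential `Df`. -/
structure FiniteDistortion (Ω : Set Plane) (f : Plane → Plane) (Df : Plane → Mat) : Prop where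
  int_f : ∀ i : Fin 2, LocInt Ω (fun x => f x i)
  int_Df : ∀ i j : Fin 2, LocInt Ω (fun x => Df x i j)
  weak : WeakDifferential Ω f Df
  int_J : LocInt Ω (fun x => (Df x).det)
  J_nonneg : AlmostAll Ω (fun x => 0 ≤ (Df x).det)
  distortion : ∃ K : Plane → ℝ, Measurable K ∧ (∀ x ∈ Ω, 1 ≤ K x) ∧
    AlmostAll Ω (fun x => opNorm (Df x) ^ 2 ≤ K x * (Df x).det)

/-- The inner distortion of a matrix (dimension two). -/
noncomputable def innerDistortion (A : Mat) : ℝ :=
  if 0 < A.det then opNorm A.adjugate ^ 2 / A.det else 1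

/-- The integral over `Ω` of the `p`-th power of the inner distortion. -/
noncomputable def energy (Ω : Set Plane) (p : ℝ) (Df : Plane → Mat) : ENNReal :=
  ∫⁻ x in Ω, ENNReal.ofReal (innerDistortion (Df x) ^ p)

/-- The class of the homeomorphisms from the closure of `Ω` onto the closure of `g(Ω)` which have
finite distortion on `Ω` and agree with `g` on the boundary of `Ω`. -/
structure InClass (Ω : Set Plane) (g f : Plane → Plane) (Df : Plane → Mat) : Prop where
  cont : ContinuousOn f (closure Ω)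
  inj : InjOn f (closure Ω)
  image : f '' closure Ω = closure (g '' Ω)
  boundary : ∀ x ∈ frontier Ω, f x = g x
  finite_distortion : FiniteDistortion Ω f Df

/-- The map `f` (with weak differential `Df`) has finite energy and is the unique minimiser of the
energy in the class of its own boundary values. -/
structure UniqueMinimiser (Ω : Set Plane) (p : ℝ) (f : Plane → Plane) (Df : Plane → Mat) :
    Prop where
  mem : InClass Ω f f Df
  finite : energy Ω p Df < ⊤
  minimal : ∀ (h : Plane → Plane) (Dh : Plane → Mat),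
    InClass Ω f h Dh → energy Ω p Df ≤ energy Ω p Dh
  unique : ∀ (h : Plane → Plane) (Dh : Plane → Mat),
    InClass Ω f h Dh → energy Ω p Dh = energy Ω p Df → EqOn h f (closure Ω)

/-- The map `f` is of class `C ^ 1` on `Ω`, with differential `Df` and positive Jacobian. -/
structure Regular (Ω : Set Plane) (f : Plane → Plane) (Df : Plane → Mat) : Prop where
  contDiff : ContDiffOn ℝ 1 f Ω
  differential : ∀ x ∈ Ω, ∀ i j : Fin 2, partialD j (fun y => f y i) x = Df x i j
  jacobian : ∀ x ∈ Ω, 0 < (Df x).det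

/-- The open disc of radius one around `(3/2, 0)`. -/
noncomputable def disc : Set Plane := Metric.ball (!₂[3 / 2, 0] : Plane) 1

/-- The function `a` with `a' (t) = max 1 (t ^ (-1 / (p - 1))) / (2 t)` and `a (1) = 0`. -/
noncomputable def radial (p r : ℝ) : ℝ :=
  ∫ t in (1 : ℝ)..r, max 1 (t ^ (-(1 / (p - 1)))) / (2 * t)

/-- The map: in polar coordinates `(r, θ)` of the right half plane, `(r, θ)` is sent to
`(a (r ^ 2), θ)`. -/
noncomputable def theMap (p : ℝ) (x : Plane) : Plane :=
  !₂[radial p (x 0 ^ 2 + x 1 ^ 2), Real.arctan (x 1 / x 0)]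

open Pool.Agent.MP_6ded3d_an

lemma opNorm_eq (A : Mat) : opNorm A = opN A := by
  have hb : ∀ r ∈ {r : ℝ | ∃ a b : ℝ, a ^ 2 + b ^ 2 ≤ 1 ∧ r = lengthOf A a b}, r ≤ opN A := by
    rintro r ⟨a, b, hab, rfl⟩
    unfold lengthOf
    have h1 := P.opN_quad A a b
    have h2 : opN A ^ 2 * (a ^ 2 + b ^ 2) ≤ opN A ^ 2 := by
      nlinarith [sq_nonneg (opN A)]
    exact Real.sqrt_le_iff.2 ⟨opN_nonneg A, h1.trans h2⟩
  have h0 : (0 : ℝ) ∈ {r : ℝ | ∃ a b : ℝ, a ^ 2 + b ^ 2 ≤ 1 ∧ r = lengthOf A a b} :=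
    ⟨0, 0, by norm_num, by simp [lengthOf]⟩
  have hbd : BddAbove {r : ℝ | ∃ a b : ℝ, a ^ 2 + b ^ 2 ≤ 1 ∧ r = lengthOf A a b} := ⟨_, hb⟩
  have hnn : 0 ≤ opNorm A := le_csSup hbd h0
  apply le_antisymm
  · exact csSup_le ⟨0, h0⟩ hb
  · apply opN_le_of hnn
    intro a b
    rcases eq_or_lt_of_le (show 0 ≤ a ^ 2 + b ^ 2 by positivity) with h | h
    · have ha : a = 0 := by nlinarith [sq_nonneg a, sq_nonneg b]
      have hb' : b = 0 := by nlinarith [sq_nonneg a, sq_nonneg b]
      rw [ha, hb']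
      simp
    · set c := Real.sqrt (a ^ 2 + b ^ 2) with hc
      have hc0 : 0 < c := Real.sqrt_pos.2 h
      have hc2 : c ^ 2 = a ^ 2 + b ^ 2 := Real.sq_sqrt h.le
      have hmem : lengthOf A (a / c) (b / c) ≤ opNorm A := by
        refine le_csSup hbd ⟨a / c, b / c, ?_, rfl⟩
        rw [div_pow, div_pow, ← add_div, hc2, div_self h.ne']
      have hl0 : 0 ≤ lengthOf A (a / c) (b / c) := Real.sqrt_nonneg _
      have h3 := pow_le_pow_left₀ hl0 hmem 2
      unfold lengthOf at h3
      rw [Real.sq_sqrt (by positivity)] at h3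
      have h4 : (A 0 0 * (a / c) + A 0 1 * (b / c)) ^ 2 + (A 1 0 * (a / c) + A 1 1 * (b / c)) ^ 2
          = ((A 0 0 * a + A 0 1 * b) ^ 2 + (A 1 0 * a + A 1 1 * b) ^ 2) / c ^ 2 := by
        field_simp
      rw [h4, div_le_iff₀ (by positivity), hc2] at h3
      exact h3

lemma fd_iff (f : Plane → Plane) (Df : Plane → Mat) :
    FiniteDistortion disc f Df ↔ FDp Om f Df := by
  constructor
  · intro h
    refine ⟨h.1, h.2, fun φ h1 h2 h3 i j => h.3 φ ⟨h1, h2, h3⟩ i j, h.4, h.5, ?_⟩
    obtain ⟨K, hK1, hK2, hK3⟩ := h.6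
    refine ⟨K, hK1, hK2, ?_⟩
    have hK4 : ∀ᵐ x ∂(volume.restrict Om), opNorm (Df x) ^ 2 ≤ K x * (Df x).det := hK3
    filter_upwards [hK4] with x hx
    rwa [opNorm_eq] at hx
  · intro h
    refine ⟨h.1, h.2.1, fun φ hφ i j => h.2.2.1 φ hφ.1 hφ.2.1 hφ.2.2 i j, h.2.2.2.1,
      h.2.2.2.2.1, ?_⟩
    obtain ⟨K, hK1, hK2, hK3⟩ := h.2.2.2.2.2
    refine ⟨K, hK1, hK2, ?_⟩
    have hK4 : ∀ᵐ x ∂(volume.restrict Om), opNorm (Df x) ^ 2 ≤ K x * (Df x).det := by
      filter_upwards [hK3] with x hx
      rwa [opNorm_eq]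
    exact hK4

lemma inner_eq (A : Mat) : innerDistortion A = KIm A := by
  unfold innerDistortion KIm
  simp only [show (2 : ℕ) - 1 = 1 from rfl, pow_one, opNorm_eq]

lemma map_eq (p : ℝ) : theMap p = P.fex (1 / (p - 1)) := by
  funext x
  unfold theMap radial P.fex P.prof P.sd
  simp only [div_eq_mul_inv]
  rfl

/-- For every `p > 1` the map `theMap p` is a homeomorphism of the closed disc onto its image, of
finite distortion and finite energy, with bounded inner distortion, of class `C ^ 1` in the disc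
with positive Jacobian; it is the unique minimiser in the class of its own boundary values; and it
is not of class `C ^ 2`. -/
theorem result (p : ℝ) (hp : 1 < p) :
    ∃ D : Plane → Mat, UniqueMinimiser disc p (theMap p) D ∧ Regular disc (theMap p) D ∧
      (∀ x ∈ disc, innerDistortion (D x) ≤ 4 ^ (1 / (p - 1))) ∧
      ¬ ContDiffOn ℝ 2 (theMap p) disc := by
  have hs : 1 / (p - 1) = (p - 1)⁻¹ := one_div _
  have hs0 : 0 < 1 / (p - 1) := by
    have : 0 < p - 1 := by linarith
    positivity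
  have hE : ∀ Df : Plane → Mat, energy disc p Df
      = ∫⁻ x in Om, ENNReal.ofReal (KIm (Df x) ^ p) := by
    intro Df
    unfold energy
    simp only [inner_eq]
    rfl
  have hcl : closure disc = Metric.closedBall ctr 1 := closure_Om
  rw [map_eq]
  refine ⟨P.Dfex (1 / (p - 1)), ⟨⟨?_, ?_, ?_, fun _ _ => rfl, ?_⟩, ?_, ?_, ?_⟩, ⟨?_, ?_, ?_⟩, ?_, ?_⟩
  · rw [hcl]; exact P.fex_cont
  · rw [hcl]; exact P.fex_inj
  · exact P.fex_image_closure
  · exact (fd_iff _ _).2 P.fex_FD
  · rw [hE]; exact P.fex_energy hp hs0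
  · intro h Dh hh
    have hfd := (fd_iff h Dh).1 hh.finite_distortion
    rw [hE, hE]
    exact P.minimal hp hs hh.cont hh.inj hh.image hh.boundary hfd
  · intro h Dh hh heq x hx
    have hfd := (fd_iff h Dh).1 hh.finite_distortion
    rw [hE, hE] at heq
    exact P.unique hp hs hh.cont hh.inj hh.image hh.boundary hfd heq.le x hx
  · exact P.contDiff_one
  · intro x hx i j
    have h1 : HasFDerivAt (fun y => P.fex (1 / (p - 1)) y i)
        ((pr i).comp (toCLM (P.Dfex (1 / (p - 1)) x))) x :=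
      ((pr i).hasFDerivAt).comp x (P.hasFDerivAt_fex (x0_pos hx))
    unfold partialD
    rw [h1.fderiv]
    exact toCLM_single _ i j
  · intro x hx
    have h0 := x0_pos hx
    rw [P.det_Dfex h0]
    have := P.kap_ge_one (s := 1 / (p - 1)) x
    have := q_pos h0
    positivity
  · intro x hx
    rw [inner_eq]
    exact (P.KIm_Dfex_le (x0_pos hx)).trans (P.kap_le hs0 (Om_sub hx))
  · exact P.not_C2 hs0

end Pool.Agent.Results.MP_6ded3d_an.AllExponents
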